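import Pool.Agent.Helper3.WT.St.Stubs

/-! Project WT (MP_12a1af_nt, captain helper3), piece C5: analysis of the loss. -/

set_option autoImplicit false

namespace Pool.Agent.Helper71.WT

open Finset Filter
open Pool.Agent.Helper48.ET
open Pool.Agent.Helper3.WT
open Pool.Agent.Helper3.WT.St

lemma p_pos (σ : Sys) (k : ℕ) : 0 < σ.p k := lt_of_le_of_lt (Nat.zero_le _) (σ.comp k).lt_p

lemma W_succ (σ : Sys) (k : ℕ) : σ.W (k + 1) = σ.W k * (2 * σ.p k) ^ (2 * σ.M k) := by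
  rw [Sys.W, Finset.prod_range_succ]; rfl

lemma pow_pos' (σ : Sys) (k m : ℕ) : 0 < (2 * σ.p k) ^ m := by
  have := p_pos σ k
  positivity

lemma W_pos (σ : Sys) (k : ℕ) : 0 < σ.W k := Finset.prod_pos fun _ _ => pow_pos' σ _ _

lemma W_mono (σ : Sys) : Monotone σ.W := by
  refine monotone_nat_of_le_succ fun k => ?_
  rw [W_succ]
  exact Nat.le_mul_of_pos_right _ (pow_pos' σ _ _)

lemma aux {a b X d : ℝ} (ha : 0 < a) (hb : 0 < b) (hd : 0 < d) (h : a ≤ b ^ (1 + d))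
    (hX : a * b ≤ X) : a ≤ X ^ ((1 + d) / (2 + d)) := by
  have h1 : a ^ (1 / (1 + d)) ≤ b := by
    have := Real.rpow_le_rpow ha.le h (show (0 : ℝ) ≤ 1 / (1 + d) by positivity)
    rw [← Real.rpow_mul hb.le] at this
    have e : (1 + d) * (1 / (1 + d)) = 1 := by field_simp
    rwa [e, Real.rpow_one] at this
  have h2 : a ^ ((2 + d) / (1 + d)) ≤ X := by
    have e : (2 + d) / (1 + d) = 1 + 1 / (1 + d) := by field_simp; ring
    rw [e, Real.rpow_add ha, Real.rpow_one]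
    exact (mul_le_mul_of_nonneg_left h1 ha.le).trans hX
  have h3 := Real.rpow_le_rpow (by positivity) h2
    (show (0 : ℝ) ≤ (1 + d) / (2 + d) by positivity)
  rw [← Real.rpow_mul ha.le] at h3
  have e : (2 + d) / (1 + d) * ((1 + d) / (2 + d)) = 1 := by field_simp
  rwa [e, Real.rpow_one] at h3

lemma log_two_p {σ : Sys} {n : ℕ → ℕ} (hs : Sized σ n) (k : ℕ) :
    (2 : ℝ) ^ n k * Real.log 2 ≤ Real.log ((2 * σ.p k : ℕ) : ℝ) := by
  have h1 : (2 : ℝ) ^ (2 ^ n k) ≤ ((2 * σ.p k : ℕ) : ℝ) := by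
    have := (hs.p_gt k).le
    have h2 : 2 ^ 2 ^ n k ≤ 2 * σ.p k := by omega
    exact_mod_cast h2
  have h2 := Real.log_le_log (by positivity) h1
  rw [Real.log_pow] at h2
  push_cast at h2 ⊢
  exact h2

lemma log_pow_ge {σ : Sys} {n : ℕ → ℕ} (hs : Sized σ n) (k m x : ℕ)
    (hx : (2 * σ.p k) ^ (2 * m) ≤ x) : (m : ℝ) * (2 : ℝ) ^ n k ≤ Real.log x := by
  have h0 := pow_pos' σ k (2 * m)
  have h1 : (((2 * σ.p k : ℕ) : ℝ)) ^ (2 * m) ≤ (x : ℝ) := by exact_mod_cast hx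
  have h2 := Real.log_le_log (by exact_mod_cast h0) h1
  rw [Real.log_pow] at h2
  have h3 := log_two_p hs k
  have h4 : (1 : ℝ) ≤ 2 * Real.log 2 := by
    have := Real.log_two_gt_d9
    linarith
  have h5 : (0 : ℝ) ≤ (m : ℝ) * (2 : ℝ) ^ n k := by positivity
  calc (m : ℝ) * (2 : ℝ) ^ n k ≤ (m : ℝ) * (2 : ℝ) ^ n k * (2 * Real.log 2) :=
        le_mul_of_one_le_right h5 h4
    _ = ((2 * m : ℕ) : ℝ) * ((2 : ℝ) ^ n k * Real.log 2) := by push_cast; ring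
    _ ≤ ((2 * m : ℕ) : ℝ) * Real.log ((2 * σ.p k : ℕ) : ℝ) :=
        mul_le_mul_of_nonneg_left h3 (by positivity)
    _ ≤ Real.log x := h2

lemma core {σ : Sys} {n : ℕ → ℕ} (hs : Sized σ n) {d : ℝ} (hd : 0 < d) {x k N : ℕ}
    (hN : 2 ≤ N) (hNM : N ≤ σ.M (k + 1)) (h1 : (n (k + 1 + 1) : ℝ) ≤ (1 + d) * n (k + 1))
    (h2 : (n (k + 1) : ℝ) ≤ (1 + d) * n k)
    (hx : σ.W (k + 1) * (2 * σ.p (k + 1)) ^ (2 * N) ≤ x) :
    (2 : ℝ) ^ n (k + 1) ≤ Real.log x ^ ((1 + d) / (2 + d)) ∧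
      (N : ℝ) ≤ Real.log x ^ ((1 + d) / (2 + d)) := by
  have e : ∀ j, (2 : ℝ) ^ n j = (2 : ℝ) ^ (n j : ℝ) := fun j => (Real.rpow_natCast _ _).symm
  have key : ∀ j, (n (j + 1) : ℝ) ≤ (1 + d) * n j →
      (2 : ℝ) ^ n (j + 1) ≤ ((2 : ℝ) ^ n j) ^ (1 + d) := by
    intro j hj
    rw [e, e, ← Real.rpow_mul (by norm_num)]
    exact Real.rpow_le_rpow_of_exponent_le (by norm_num) (by linarith)
  constructor
  · refine aux (b := (2 : ℝ) ^ n k) (by positivity) (by positivity) hd (key k h2) ?_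
    have h3 : (2 * σ.p k) ^ (2 * σ.M k) ≤ x := by
      refine le_trans ?_ hx
      rw [W_succ]
      calc (2 * σ.p k) ^ (2 * σ.M k) ≤ σ.W k * (2 * σ.p k) ^ (2 * σ.M k) :=
            Nat.le_mul_of_pos_left _ (W_pos σ k)
        _ ≤ _ := Nat.le_mul_of_pos_right _ (pow_pos' σ _ _)
    have h4 := log_pow_ge hs k (σ.M k) x h3
    rw [hs.M_eq k] at h4
    push_cast at h4
    exact h4
  · have hN' : (N : ℝ) ≤ (2 : ℝ) ^ n (k + 1 + 1) := by
      rw [hs.M_eq (k + 1)] at hNM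
      exact_mod_cast hNM
    refine aux (b := (2 : ℝ) ^ n (k + 1)) (by positivity) (by positivity) hd
      (hN'.trans (key (k + 1) h1)) ?_
    refine log_pow_ge hs (k + 1) N x (le_trans ?_ hx)
    exact Nat.le_mul_of_pos_left _ (W_pos σ _)

/-- WT-C5: analysis of the loss -/
theorem loss {σ : Sys} {n : ℕ → ℕ} (hs : Sized σ n)
    (hr : ∀ e : ℝ, 0 < e → ∀ᶠ k in atTop, (n (k + 1) : ℝ) ≤ (1 + e) * n k) :
    ∀ e : ℝ, 0 < e → ∀ᶠ x : ℕ in atTop, ∀ K N, 1 ≤ K → 2 ≤ N → N ≤ σ.M K →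
      σ.W K * (2 * σ.p K) ^ (2 * N) ≤ x → x < σ.W (K + 2) →
      (2 : ℝ) ^ (16 * (2 ^ n K + N)) ≤ Real.exp (Real.log x ^ (1 / 2 + e)) := by
  intro e he
  obtain ⟨k0, hk0⟩ := eventually_atTop.1 (hr e he)
  have hα : 0 < 1 / 2 + e - (1 + e) / (2 + e) := by
    have : (1 + e) / (2 + e) < 1 / 2 + e := by
      rw [div_lt_iff₀ (by positivity)]
      nlinarith
    linarith
  have hlog : Tendsto (fun x : ℕ => Real.log x) atTop atTop :=
    Real.tendsto_log_atTop.comp tendsto_natCast_atTop_atTop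
  filter_upwards [((tendsto_rpow_atTop hα).comp hlog).eventually_ge_atTop 32,
    hlog.eventually_gt_atTop 0, eventually_ge_atTop (σ.W (k0 + 3))] with x hx32 hx0 hxW
  intro K N hK hN hNM hx hxK
  obtain ⟨k, rfl⟩ : ∃ k, K = k + 1 := ⟨K - 1, by omega⟩
  have hk : k0 ≤ k := by
    by_contra hcon
    have : σ.W (k + 1 + 2) ≤ σ.W (k0 + 3) := W_mono σ (by omega)
    omega
  obtain ⟨g1, g2⟩ := core hs he hN hNM (hk0 (k + 1) (by omega)) (hk0 k hk) hx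
  have g3 : 32 * Real.log x ^ ((1 + e) / (2 + e)) ≤ Real.log x ^ (1 / 2 + e) := by
    have e1 : 1 / 2 + e = (1 / 2 + e - (1 + e) / (2 + e)) + (1 + e) / (2 + e) := by ring
    rw [e1, Real.rpow_add hx0]
    exact mul_le_mul_of_nonneg_right hx32 (by positivity)
  have g4 : (2 : ℝ) ^ (16 * (2 ^ n (k + 1) + N))
      = Real.exp (((16 * (2 ^ n (k + 1) + N) : ℕ) : ℝ) * Real.log 2) := by
    rw [mul_comm (((16 * (2 ^ n (k + 1) + N) : ℕ) : ℝ)),
      ← Real.rpow_def_of_pos (by norm_num), Real.rpow_natCast]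
  rw [g4]
  refine Real.exp_le_exp.2 ?_
  have g5 : Real.log 2 ≤ 1 := by
    have := Real.log_two_lt_d9
    linarith
  push_cast
  calc (16 * ((2 : ℝ) ^ n (k + 1) + N)) * Real.log 2 ≤ (16 * ((2 : ℝ) ^ n (k + 1) + N)) * 1 :=
        mul_le_mul_of_nonneg_left g5 (by positivity)
    _ ≤ 32 * Real.log x ^ ((1 + e) / (2 + e)) := by linarith
    _ ≤ _ := g3

end Pool.Agent.Helper71.WT
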